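import Mathlib

open Filter Topology CStarModule

set_option linter.unusedSectionVars false

namespace Pool.Agent.Results.MP_7e9539_an.Hereditary

variable {A E : Type*} [NonUnitalCStarAlgebra A] [PartialOrder A] [StarOrderedRing A] [SMul A E]
  [NormedAddCommGroup E] [NormedSpace ℂ E] [CStarModule A E]

lemma ext' {u v : E} (h : ∀ z, inner A z u = inner A z v) : u = v := by
  rw [← sub_eq_zero, ← inner_self (A := A), CStarModule.inner_sub_right, h, sub_self]

lemma norm_act (c : A) (x : E) : ‖c • x‖ ≤ ‖x‖ * ‖c‖ := by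
  refine (pow_le_pow_iff_left₀ (norm_nonneg _) (by positivity) two_ne_zero).1 ?_
  rw [norm_sq_eq A, inner_op_smul_right, inner_op_smul_left, mul_pow, norm_sq_eq A]
  grw [norm_mul_le, norm_mul_le, norm_star]
  exact le_of_eq (by ring)

variable (A) in
/-- `x` as the operator `(c, y) ↦ (0, c • x)` on `A ⊕ E`. -/
noncomputable def cr (x : E) : A × E →L[ℂ] A × E :=
  (ContinuousLinearMap.inr ℂ A E).comp ((LinearMap.mkContinuous
    ({ toFun := fun c : A => c • x
       map_add' := fun a b => ext' (A := A) fun z => by simp [add_mul]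
       map_smul' := fun a b => ext' (A := A) fun z => by simp [smul_mul_assoc] } : A →ₗ[ℂ] E) ‖x‖
    fun c => norm_act c x).comp (ContinuousLinearMap.fst ℂ A E))

variable (A) in
/-- `x^*` as the operator `(c, y) ↦ (⟪x, y⟫, 0)` on `A ⊕ E`. -/
noncomputable def an (x : E) : A × E →L[ℂ] A × E :=
  (ContinuousLinearMap.inl ℂ A E).comp ((innerSL x).comp (ContinuousLinearMap.snd ℂ A E))

variable (A) in
/-- The generators `x`, `x^*`, `x^* y = ⟪x, y⟫` and `x y^*` with `x, y ∈ F`. -/
def gens (F : Submodule ℂ E) : Set (A × E →L[ℂ] A × E) :=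
  {T | ∃ x ∈ F, ∃ y ∈ F, T = cr A x ∨ T = an A x ∨ T = an A x * cr A y ∨ T = cr A x * an A y}

variable (A) in
/-- The reduced linking algebra of `F`: the closed span of its four corners. -/
noncomputable def link (F : Submodule ℂ E) : Submodule ℂ (A × E →L[ℂ] A × E) :=
  (Submodule.span ℂ (gens A F)).topologicalClosure

variable (A) in
def IsTernary (F : Submodule ℂ E) : Prop :=
  IsClosed (F : Set E) ∧ ∀ x ∈ F, ∀ y ∈ F, ∀ z ∈ F, inner A y z • x ∈ F

variable (A) in
def TernaryHereditary (F : Submodule ℂ E) : Prop := ∀ x ∈ F, ∀ y, ∀ z ∈ F, inner A y z • x ∈ F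

variable (A) in
def LinkingHereditary (F : Submodule ℂ E) : Prop :=
  ∀ S ∈ link A F, ∀ T ∈ link A (⊤ : Submodule ℂ E), ∀ U ∈ link A F, S * T * U ∈ link A F

@[simp] lemma cr_apply (x : E) (p : A × E) : cr A x p = (0, p.1 • x) := rfl
@[simp] lemma an_apply (x : E) (p : A × E) : an A x p = (inner A x p.2, 0) := rfl

lemma zero_act (x : E) : (0 : A) • x = 0 := ext' (A := A) fun z => by simp
lemma mul_act (a b : A) (x : E) : (a * b) • x = a • b • x :=
  ext' (A := A) fun z => by simp [mul_assoc]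

lemma cc (x y : E) (T : A × E →L[ℂ] A × E) : cr A x * (cr A y * T) = 0 := by
  refine ContinuousLinearMap.ext fun p => ?_; simp [zero_act]
lemma aa (x y : E) (T : A × E →L[ℂ] A × E) : an A x * (an A y * T) = 0 := by
  refine ContinuousLinearMap.ext fun p => ?_; simp
lemma cac (x y z : E) (T : A × E →L[ℂ] A × E) :
    cr A x * (an A y * (cr A z * T)) = cr A (inner A y z • x) * T := by
  refine ContinuousLinearMap.ext fun p => ?_; simp [mul_act]
lemma aca (x y z : E) (T : A × E →L[ℂ] A × E) :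
    an A x * (cr A y * (an A z * T)) = an A (inner A y x • z) * T := by
  refine ContinuousLinearMap.ext fun p => ?_; simp

lemma gen_mem {F : Submodule ℂ E} {T : A × E →L[ℂ] A × E} (h : T ∈ gens A F) : T ∈ link A F :=
  Submodule.le_topologicalClosure _ (Submodule.subset_span h)

lemma extend {F G : Submodule ℂ E} (S U : A × E →L[ℂ] A × E)
    (h : ∀ T ∈ gens A F, S * (T * U) ∈ link A G) : ∀ T ∈ link A F, S * (T * U) ∈ link A G := by
  let f := ContinuousLinearMap.mulLeftRight ℂ (A × E →L[ℂ] A × E) S U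
  have : link A F ≤ (link A G).comap f.toLinearMap :=
    Submodule.topologicalClosure_minimal _
      (Submodule.span_le.2 fun T hT => by simpa [f, mul_assoc] using h T hT)
      ((Submodule.isClosed_topologicalClosure _).preimage f.continuous)
  exact fun T hT => by simpa [f, mul_assoc] using this hT

lemma step {c : A} (hc : IsSelfAdjoint c) {f : ℝ → ℝ} (f1 : Continuous f) (f0 : f 0 = 0) (r : ℝ) :
    cfcₙ (fun t => f t - r * (t * f t)) c = cfcₙ f c - r • (c * cfcₙ f c) ∧
      cfcₙ (fun t => f t - r * (t * f t)) c = cfcₙ f c - r • (cfcₙ f c * c) := by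
  have h1 := cfcₙ_mul (fun t : ℝ => t) f c
  have h2 := cfcₙ_mul f (fun t : ℝ => t) c
  rw [cfcₙ_id' ℝ c] at h1 h2
  simp only [mul_comm (f _)] at h2
  rw [cfcₙ_sub f _ c, cfcₙ_const_mul r _ c, ← h1, ← h2]
  exact ⟨rfl, rfl⟩

lemma approx {F : Submodule ℂ E} (hF : IsTernary A F) {P : E → A × E →L[ℂ] A × E}
    (hP : ∀ u v, P (u - v) = P u - P v) (K : ℝ) (hK : ∀ u, ‖P u‖ ≤ K * ‖u‖)
    (h : ∀ u ∈ F, ∀ v ∈ F, P (inner A v v • u) ∈ link A F) {z : E} (hz : z ∈ F) :
    P z ∈ link A F := by
  set c := inner A z z with hc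
  have c0 : 0 ≤ c := inner_self_nonneg
  set M := ‖c‖ + 1 with hM
  have M0 : 0 < M := by positivity
  let s : ℕ → E := fun n => (fun w => w - c • (M⁻¹ • w))^[n] z
  have hs : ∀ n, s (n + 1) = s n - c • (M⁻¹ • s n) := fun n => Function.iterate_succ_apply' _ _ _
  have hm : ∀ n, s n ∈ F ∧ P z - P (s n) ∈ link A F := fun n => by
    induction n with
    | zero => exact ⟨hz, by simp [s]⟩
    | succ n ih =>
      have := F.smul_of_tower_mem M⁻¹ ih.1
      refine ⟨hs n ▸ F.sub_mem ih.1 (hF.2 _ this z hz z hz), ?_⟩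
      rw [hs, hP, sub_sub_eq_add_sub, add_sub_right_comm]
      exact add_mem ih.2 (h _ this z hz)
  have hi : ∀ n, inner A (s n) (s n) = cfcₙ (fun t : ℝ => t * (1 - M⁻¹ * t) ^ (2 * n)) c := by
    intro n
    induction n with
    | zero => simp [s, cfcₙ_id' ℝ c, ← hc]
    | succ n ih =>
      have e1 := (step c0.isSelfAdjoint (f := fun t : ℝ => t * (1 - M⁻¹ * t) ^ (2 * n))
        (by fun_prop) (by simp) M⁻¹).1
      have e2 := (step c0.isSelfAdjoint (f := fun t : ℝ => t * (1 - M⁻¹ * t) ^ (2 * n) -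
        M⁻¹ * (t * (t * (1 - M⁻¹ * t) ^ (2 * n)))) (by fun_prop) (by simp) M⁻¹).2
      rw [e1, ← ih] at e2
      refine Eq.trans ?_ (e2.symm.trans ?_)
      · simp only [hs, CStarModule.inner_sub_left, CStarModule.inner_sub_right, inner_op_smul_left,
          inner_op_smul_right, inner_smul_left_real, inner_smul_right_real,
          c0.isSelfAdjoint.star_eq, smul_mul_assoc, mul_smul_comm, mul_sub, smul_sub, sub_mul,
          mul_assoc]
        abel
      · congr 1
        ext t
        ring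
  have hn : ∀ n : ℕ, ‖s n‖ ^ 2 ≤ M * (1 / ((n : ℝ) + 1)) := fun n => by
    rw [norm_sq_eq A, hi]
    refine norm_cfcₙ_le fun t ht => ?_
    have t0 : 0 ≤ t := quasispectrum_nonneg_of_nonneg c c0 t ht
    have t1 : t ≤ M := by
      have := norm_apply_le_norm_cfcₙ (fun t : ℝ => t) c ht
      rw [cfcₙ_id' ℝ c] at this
      linarith [(le_abs_self t).trans this]
    set r := M⁻¹ * t with hr
    have r0 : 0 ≤ r := by positivity
    have r1 : r ≤ 1 := by rw [hr, inv_mul_le_iff₀ M0]; linarith
    have h1 : (1 + n * r) * (1 - r) ^ n ≤ 1 := calc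
      _ ≤ (1 + r) ^ n * (1 - r) ^ n := by gcongr; exact one_add_mul_le_pow (by linarith) n
      _ ≤ 1 := by rw [← mul_pow]; exact pow_le_one₀ (by nlinarith) (by nlinarith)
    have h2 : (1 - r) ^ (2 * n) ≤ (1 - r) ^ n :=
      pow_le_pow_of_le_one (by linarith) (by linarith) (by omega)
    have h3 : 0 ≤ (1 - r) ^ n := pow_nonneg (by linarith) n
    have h4 : 0 ≤ (1 - r) ^ (2 * n) := pow_nonneg (by linarith) _
    have ht' : t = M * r := by rw [hr]; field_simp
    rw [Real.norm_of_nonneg (mul_nonneg t0 h4), mul_one_div, le_div_iff₀ (by positivity), ht',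
      mul_assoc, mul_assoc]
    refine mul_le_of_le_one_right M0.le ?_
    have : r * ((n : ℝ) + 1) ≤ 1 + n * r := by linarith
    nlinarith [mul_nonneg r0 (show (0 : ℝ) ≤ n + 1 by positivity)]
  have h1 : Tendsto (fun n => ‖s n‖ ^ 2) atTop (𝓝 0) := squeeze_zero (fun _ => sq_nonneg _) hn
    (by simpa using tendsto_one_div_add_atTop_nhds_zero_nat.const_mul M)
  have h2 : Tendsto (fun n => P (s n)) atTop (𝓝 0) :=
    squeeze_zero_norm (fun n => hK _) (by simpa using h1.sqrt.const_mul K)
  exact (Submodule.isClosed_topologicalClosure _).mem_of_tendsto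
    (by simpa using h2.const_sub (P z)) (Eventually.of_forall fun n => (hm n).2)

lemma norm_cr (x : E) : ‖cr A x‖ ≤ ‖x‖ :=
  ContinuousLinearMap.opNorm_le_bound _ (norm_nonneg _) fun p => by
    rw [cr_apply, Prod.norm_mk, norm_zero, max_eq_right (norm_nonneg _)]
    exact (norm_act _ _).trans (by gcongr; exact norm_fst_le p)

lemma norm_an (x : E) : ‖an A x‖ ≤ ‖x‖ :=
  ContinuousLinearMap.opNorm_le_bound _ (norm_nonneg _) fun p => by
    rw [an_apply, Prod.norm_mk, norm_zero, max_eq_left (norm_nonneg _)]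
    exact (norm_inner_le E).trans (by gcongr; exact norm_snd_le p)

theorem result {A E : Type*} [NonUnitalCStarAlgebra A] [PartialOrder A] [StarOrderedRing A]
    [SMul A E] [NormedAddCommGroup E] [NormedSpace ℂ E] [CStarModule A E] [CompleteSpace E]
    (F : Submodule ℂ E) (hF : IsTernary A F) (h : TernaryHereditary A F) :
    LinkingHereditary A F := by
  have m1 : ∀ {G : Submodule ℂ E} {x}, x ∈ G → cr A x * 1 ∈ link A G := fun hx =>
    gen_mem ⟨_, hx, _, hx, by simp⟩
  have m2 : ∀ {G : Submodule ℂ E} {x}, x ∈ G → an A x * 1 ∈ link A G := fun hx =>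
    gen_mem ⟨_, hx, _, hx, by simp⟩
  have m3 : ∀ {G : Submodule ℂ E} {x y}, x ∈ G → y ∈ G → an A x * (cr A y * 1) ∈ link A G :=
    fun hx hy => gen_mem ⟨_, hx, _, hy, by simp⟩
  have m4 : ∀ {G : Submodule ℂ E} {x y}, x ∈ G → y ∈ G → cr A x * (an A y * 1) ∈ link A G :=
    fun hx hy => gen_mem ⟨_, hx, _, hy, by simp⟩
  have hl : ∀ x : E, ∀ s, s = cr A x ∨ s = an A x → ∀ T ∈ link A (⊤ : Submodule ℂ E),
      s * (T * 1) ∈ link A (⊤ : Submodule ℂ E) ∧ 1 * (T * (s * 1)) ∈ link A (⊤ : Submodule ℂ E) := by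
    rintro x s hs T hT
    refine ⟨extend _ _ ?_ T hT, extend _ _ ?_ T hT⟩ <;>
      rintro _ ⟨y, -, z, -, rfl | rfl | rfl | rfl⟩ <;> rcases hs with rfl | rfl <;>
      simp only [mul_assoc, one_mul, cc, aa, cac, aca, mul_zero, zero_mem, m1, m2, m3, m4,
        Submodule.mem_top]
  have hA : ∀ x ∈ F, ∀ s, s = cr A x ∨ s = an A x → ∀ z ∈ F, ∀ u, u = cr A z ∨ u = an A z →
      ∀ T ∈ link A (⊤ : Submodule ℂ E), s * (T * (u * 1)) ∈ link A F := by
    rintro x hx s hs z hz u hu
    refine extend _ _ ?_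
    rintro _ ⟨y, -, e, -, rfl | rfl | rfl | rfl⟩ <;> rcases hs with rfl | rfl <;>
      rcases hu with rfl | rfl <;> try simp only [mul_assoc, cc, aa, mul_zero, zero_mem]
    · rw [aca]
      exact m2 (h z hz y x hx)
    · rw [cac]
      exact m1 (h x hx y z hz)
    · refine approx hF (P := fun w => cr A x * (an A y * (cr A e * (an A w * 1))))
        (fun u v => ?_)
        (‖cr A x * an A y * cr A e‖) (fun w => ?_) (fun u hu v hv => ?_) hz
      · have : an A (u - v) = an A u - an A v := ContinuousLinearMap.ext fun p => by simp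
        simp only [this, sub_mul, mul_sub]
      · rw [mul_one, ← mul_assoc, ← mul_assoc]
        exact (norm_mul_le _ _).trans (by gcongr; exact norm_an w)
      · rw [← aca, aca y e v, cac]
        exact m4 (h x hx _ v hv) hu
    · refine approx hF (P := fun w => an A x * (cr A y * (an A e * (cr A w * 1))))
        (fun u v => ?_) (‖an A x * cr A y * an A e‖) (fun w => ?_) (fun u hu v hv => ?_) hz
      · have : cr A (u - v) = cr A u - cr A v := by
          refine ContinuousLinearMap.ext fun p => ?_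
          exact Prod.ext (by simp) (ext' (A := A) fun z => by simp [mul_sub])
        simp only [this, sub_mul, mul_sub]
      · rw [mul_one, ← mul_assoc, ← mul_assoc]
        exact (norm_mul_le _ _).trans (by gcongr; exact norm_cr w)
      · rw [← cac, cac y e u, aca]
        exact m3 (h v hv _ x hx) hv
  intro S hS T hT U hU
  have h1 : ∀ S ∈ gens A F, ∀ U ∈ gens A F, S * T * (U * 1) ∈ link A F := by
    rintro _ ⟨x, hx, y, hy, rfl | rfl | rfl | rfl⟩ _ ⟨z, hz, w, hw, rfl | rfl | rfl | rfl⟩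
    all_goals
      have a1 := (hl y _ (.inl rfl) T hT).1
      have a2 := (hl y _ (.inr rfl) T hT).1
      have b := fun T hT => And.intro (hl z _ (.inl rfl) T hT).2 (hl z _ (.inr rfl) T hT).2
      have c := fun T hT s hs => And.intro
        (And.intro (hA x hx s hs z hz _ (.inl rfl) T hT) (hA x hx s hs z hz _ (.inr rfl) T hT))
        (And.intro (hA x hx s hs w hw _ (.inl rfl) _ (b T hT).2)
          (hA x hx s hs w hw _ (.inr rfl) _ (b T hT).1))
      have c1 := c T hT _ (.inl rfl)
      have c2 := c T hT _ (.inr rfl)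
      have c3 := c _ a1 _ (.inr rfl)
      have c4 := c _ a2 _ (.inl rfl)
      simp only [mul_assoc, mul_one, one_mul] at c1 c2 c3 c4 ⊢
      simp only [c1, c2, c3, c4]
  have h2 := extend 1 (T * U) (fun S hS => by
    simpa [mul_assoc] using extend (S * T) 1 (h1 S hS) U hU) S hS
  simpa [mul_assoc] using h2

end Pool.Agent.Results.MP_7e9539_an.Hereditary
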